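import Pool.Agent.P8H58.Lgl
import Pool.Agent.P8H58.Prd2
import Pool.Agent.R674.KB.Dz
import Pool.Agent.N85.TG.Exc0

/-!
# Blocks given by a reduction map and blocks given by a valuation ring
-/

set_option autoImplicit false
set_option linter.unusedSectionVars false

open scoped Classical

noncomputable section

namespace Pool.Agent.P8H58.AW

open Pool.Agent.Y63.KR (IsPChain chainStabilizer alternatingSum)
open Pool.Agent.Y63.AWC (IsIrreducibleCharacter)
open Pool.Agent.Y63.NV (centralValue redC IsClassFun numIrrInd numDzBlock IsWt)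
open Pool.Agent.Y930.NV (om om_int ind Cf Cf_ind Cf_expand R centralValue_eq redC_of)
open Pool.Agent.H254R3.IN (omega IsIrr)
open Pool.Agent.Q90.WR (IndS mem_IndS sum_eq_L' GoodB AdmB blkAlt)
open Pool.Agent.Q259.BW (L omega_eq_L)

theorem exists_center (A : Subring ℂ) (P : Ideal A) [P.IsPrime] :
    ∃ B : ValuationSubring ℂ, A ≤ B.toSubring ∧ A.subtype '' P ⊆ B.nonunits ∧
      ∀ a : A, a ∉ P → (a : ℂ)⁻¹ ∈ B := by
  have ⟨V, hV⟩ := (LocalSubring.ofPrime A P).exists_le_valuationSubring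
  refine ⟨V, (LocalSubring.le_ofPrime ..).trans hV.1, ?_, ?_⟩
  · rw [← V.image_maximalIdeal]
    refine .trans ?_ (Set.image_mono <| ((IsLocalRing.local_hom_TFAE _).out 0 2).mp hV.2)
    rw [← IsLocalization.AtPrime.map_eq_maximalIdeal P, Ideal.map_map]
    rintro _ ⟨a, ha, rfl⟩
    exact ⟨_, Ideal.mem_map_of_mem _ ha, rfl⟩
  · intro a ha
    have hu : IsUnit (algebraMap A (LocalSubring.ofPrime A P).toSubring a) :=
      IsLocalization.map_units (M := P.primeCompl) _ ⟨a, ha⟩
    obtain ⟨u, hu⟩ := hu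
    have h1 : ((u⁻¹ : (LocalSubring.ofPrime A P).toSubringˣ) :
        (LocalSubring.ofPrime A P).toSubring).1 = (a : ℂ)⁻¹ := by
      have h2 : (u : (LocalSubring.ofPrime A P).toSubring).1 = (a : ℂ) := by rw [hu]; rfl
      rw [← h2]
      apply eq_inv_of_mul_eq_one_left
      have := u.inv_mul
      exact congrArg Subtype.val this
    rw [← h1]
    exact hV.1 (Subtype.property _)

/-- a valuation ring which induces the reduction map on the algebraic integers -/
theorem exists_O {F : Type} [Field F] (red : integralClosure ℤ ℂ →+* F) :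
    ∃ O : ValuationSubring ℂ, ∀ (a : ℂ) (h : IsIntegral ℤ a),
      (a ∈ O.nonunits ↔ red ⟨a, h⟩ = 0) := by
  let A : Subring ℂ := (integralClosure ℤ ℂ).toSubring
  let r : A →+* F :=
    { toFun := fun a => red ⟨a.1, a.2⟩
      map_one' := map_one red
      map_mul' := fun a b => map_mul red ⟨a.1, a.2⟩ ⟨b.1, b.2⟩
      map_zero' := map_zero red
      map_add' := fun a b => map_add red ⟨a.1, a.2⟩ ⟨b.1, b.2⟩ }
  haveI : (RingHom.ker r).IsPrime := RingHom.ker_isPrime r
  obtain ⟨O, h1, h2, h3⟩ := exists_center A (RingHom.ker r)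
  refine ⟨O, fun a h => ⟨fun h4 => ?_, fun h4 => ?_⟩⟩
  · by_contra h5
    have h6 : (⟨a, h⟩ : A) ∉ RingHom.ker r := fun h => h5 h
    have h7 : (a : ℂ)⁻¹ ∈ O := h3 ⟨a, h⟩ h6
    have ha : a ≠ 0 := by
      rintro rfl
      exact h5 (map_zero red)
    rw [← ValuationSubring.valuation_le_one_iff] at h7
    rw [ValuationSubring.mem_nonunits_iff] at h4
    have h8 : O.valuation a * O.valuation a⁻¹ = 1 := by
      rw [← map_mul, mul_inv_cancel₀ ha, map_one]
    have h9 : O.valuation a * O.valuation a⁻¹ < 1 := by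
      calc O.valuation a * O.valuation a⁻¹ ≤ O.valuation a * 1 := mul_le_mul_right h7 _
        _ = O.valuation a := mul_one _
        _ < 1 := h4
    exact absurd h8 h9.ne
  · exact h2 ⟨⟨a, h⟩, h4, rfl⟩

theorem om_L {G K : Type} [Group G] [Fintype G] [Group K] [Fintype K] (π : K → G) (θ : K → ℂ) (x : G) :
    om θ (fun y => ((ind ℤ (ConjClasses.mk x) (π y) : ℤ) : ℂ)) = L π θ x := by
  unfold om L ind
  congr 1
  refine Finset.sum_congr rfl fun y _ => ?_
  beta_reduce
  by_cases h : IsConj x (π y)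
  · rw [if_pos h, if_pos (ConjClasses.mk_eq_mk_iff_isConj.2 h.symm)]
    push_cast
    rw [one_mul]
  · rw [if_neg h, if_neg (fun h1 => h (ConjClasses.mk_eq_mk_iff_isConj.1 h1).symm)]
    push_cast
    rw [zero_mul]

theorem Cf_sub {G : Type} [Group G] [Fintype G] (H : Subgroup G) (C : ConjClasses G) :
    Cf (fun y : H => ind ℤ C (y : G)) := by
  intro g y
  change ind ℤ C ((g : G) * (y : G) * (g : G)⁻¹) = ind ℤ C (y : G)
  exact Cf_ind ℤ C (g : G) (y : G)

section dic

variable {F : Type} [Field F] (red : integralClosure ℤ ℂ →+* F)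

theorem cv_sub {G : Type} [Group G] [Fintype G] (H : Subgroup G) {θ : H → ℂ}
    (hθ : IsIrreducibleCharacter θ) {f : G → F} (hf : IsClassFun f) :
    centralValue red θ (fun x : H => f x) =
      ∑ C : ConjClasses G, f C.out * R red θ (fun y : H => ind ℤ C (y : G)) := by
  symm
  refine expand_gen' red hθ (fun C => f C.out) (fun C (y : H) => ind ℤ C (y : G))
    (fun C => Cf_sub H C) (fun x : H => f x) fun x => ?_
  have h := Cf_expand hf (x : G)
  rw [h]
  refine Finset.sum_congr (Finset.ext fun _ => by simp only [Finset.mem_univ]) fun C _ => ?_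
  congr 1
  unfold ind
  split_ifs <;> simp

variable {O : ValuationSubring ℂ}
  (hO : ∀ (a : ℂ) (h : IsIntegral ℤ a), (a ∈ O.nonunits ↔ red ⟨a, h⟩ = 0))

include hO

theorem sub_iff {a b : ℂ} (ha : IsIntegral ℤ a) (hb : IsIntegral ℤ b) :
    a - b ∈ O.nonunits ↔ redC red a = redC red b := by
  have h1 : red ⟨a - b, ha.sub hb⟩ = red ⟨a, ha⟩ - red ⟨b, hb⟩ :=
    map_sub red (⟨a, ha⟩ : integralClosure ℤ ℂ) ⟨b, hb⟩
  rw [hO (a - b) (ha.sub hb), redC_of red ha, redC_of red hb, h1, sub_eq_zero]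

omit hO in
theorem sum_ind {G : Type} [Group G] [Fintype G] (i : Fintype (ConjClasses G)) (x : G)
    (a : ConjClasses G → F) : @Finset.sum _ _ _ (@Finset.univ _ i)
      (fun C => ind F (ConjClasses.mk x) C.out * a C) = a (ConjClasses.mk x) := by
  rw [Finset.sum_eq_single (ConjClasses.mk x)]
  · rw [Pool.Agent.Y930.NV.ind_out, if_pos rfl, one_mul]
  · intro C _ hC
    rw [Pool.Agent.Y930.NV.ind_out, if_neg hC, zero_mul]
  · intro h
    exact absurd (Finset.mem_univ _) h

omit hO in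
theorem R_L {G : Type} [Group G] [Fintype G] (H : Subgroup G) (θ : H → ℂ) (x : G) :
    R red θ (fun y : H => ind ℤ (ConjClasses.mk x) (y : G)) =
      redC red (L (Subtype.val : H → G) θ x) := by
  unfold R
  rw [← om_L]

omit hO in
theorem L_int {G : Type} [Group G] [Fintype G] (H : Subgroup G) {θ : H → ℂ}
    (hθ : IsIrreducibleCharacter θ) (x : G) : IsIntegral ℤ (L (Subtype.val : H → G) θ x) := by
  rw [← om_L]
  exact om_int hθ (Cf_sub H (ConjClasses.mk x))

section gp

variable {G : Type} [Group G] [Fintype G] {B : (G → F) → F} {χ₀ : G → ℂ}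

omit hO in
theorem R_omega (h0 : IsIrreducibleCharacter χ₀) (x : G) :
    R red χ₀ (ind ℤ (ConjClasses.mk x)) = redC red (omega χ₀ x) := by
  rw [omega_eq_L (show IsIrr χ₀ from h0), ← om_L (MonoidHom.id G) χ₀ x]
  rfl

/-- the block of a character -/
def bs (O : ValuationSubring ℂ) (χ₀ : G → ℂ) : Set (G → ℂ) :=
  {χ | IsIrr χ ∧ ∀ x : G, omega χ x - omega χ₀ x ∈ O.nonunits}

omit hO in
theorem bs_block (O : ValuationSubring ℂ) (h0 : IsIrreducibleCharacter χ₀) :
    Pool.Agent.H254R3.IN.IsBlock O (bs O χ₀) := ⟨χ₀, h0, rfl⟩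

omit hO in
theorem self_mem (O : ValuationSubring ℂ) (h0 : IsIrreducibleCharacter χ₀) : χ₀ ∈ bs O χ₀ := by
  refine ⟨h0, fun x => ?_⟩
  rw [sub_self, ValuationSubring.mem_nonunits_iff, map_zero]
  exact zero_lt_one

theorem mem_iff (h0 : IsIrreducibleCharacter χ₀)
    (hB : ∀ f : G → F, IsClassFun f → centralValue red χ₀ f = B f) (H : Subgroup G)
    (θ : H → ℂ) : θ ∈ IndS O (bs O χ₀) (Subtype.val : H → G) ↔ IsIrreducibleCharacter θ ∧
      ∀ f : G → F, IsClassFun f → centralValue red θ (fun x => f x) = B f := by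
  rw [mem_IndS (bs_block O h0) (self_mem O h0)]
  constructor
  · rintro ⟨h1, h2⟩
    refine ⟨h1, fun f hf => ?_⟩
    rw [cv_sub red H h1 hf, ← hB f hf, centralValue_eq red h0]
    refine Finset.sum_congr (Finset.ext fun _ => by simp only [Finset.mem_univ]) fun C _ => ?_
    congr 1
    obtain ⟨x, rfl⟩ := ConjClasses.exists_rep C
    rw [R_L, R_omega red h0]
    rw [← sub_iff red hO (L_int H h1 x) (Pool.Agent.H254R3.IN.IsIrr.omega_isIntegral h0 x),
      ← Pool.Agent.H254R3.IN.red_eq_iff (h2 x).1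
        (Pool.Agent.H254R3.IN.IsIrr.omega_mem h0 O x)]
    exact (h2 x).2
  · rintro ⟨h1, h2⟩
    refine ⟨h1, fun x => ?_⟩
    have hm := Pool.Agent.H254R3.IN.mem_of_isIntegral (O := O) (L_int H h1 x)
    refine ⟨hm, ?_⟩
    rw [Pool.Agent.H254R3.IN.red_eq_iff hm (Pool.Agent.H254R3.IN.IsIrr.omega_mem h0 O x),
      sub_iff red hO (L_int H h1 x) (Pool.Agent.H254R3.IN.IsIrr.omega_isIntegral h0 x),
      ← R_L, ← R_omega red h0]
    have hf : IsClassFun (ind F (ConjClasses.mk x)) := Cf_ind F (ConjClasses.mk x)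
    have h3 := h2 _ hf
    rw [cv_sub red H h1 hf, ← hB _ hf, centralValue_eq red h0] at h3
    exact (sum_ind _ x (fun C => R red θ (fun y : H => ind ℤ C (y : G)))).symm.trans
      (h3.trans (sum_ind _ x (fun C => R red χ₀ (ind ℤ C))))

/-- the numbers of characters -/
theorem card_eq (h0 : IsIrreducibleCharacter χ₀)
    (hB : ∀ f : G → F, IsClassFun f → centralValue red χ₀ f = B f) (H : Subgroup G) :
    numIrrInd red H B = Nat.card (IndS O (bs O χ₀) (Subtype.val : H → G)) := by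
  unfold numIrrInd
  exact Nat.card_congr (Equiv.subtypeEquivRight fun θ => (mem_iff red hO h0 hB H θ).symm)

/-- the alternating sums -/
theorem alt_eq (p : ℕ) (h0 : IsIrreducibleCharacter χ₀)
    (hB : ∀ f : G → F, IsClassFun f → centralValue red χ₀ f = B f) :
    alternatingSum p G (fun H => (numIrrInd red H B : ℤ)) = blkAlt p O (bs O χ₀) := by
  unfold blkAlt
  congr 1
  funext H
  rw [card_eq red hO h0 hB H]

theorem mem_bs (h0 : IsIrreducibleCharacter χ₀)
    (hB : ∀ f : G → F, IsClassFun f → centralValue red χ₀ f = B f) {χ : G → ℂ} :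
    χ ∈ bs O χ₀ ↔ IsIrreducibleCharacter χ ∧
      ∀ f : G → F, IsClassFun f → centralValue red χ f = B f := by
  constructor
  · rintro ⟨h1, h2⟩
    refine ⟨h1, fun f hf => ?_⟩
    rw [← hB f hf, centralValue_eq red h1, centralValue_eq red h0]
    refine Finset.sum_congr rfl fun C _ => ?_
    congr 1
    obtain ⟨x, rfl⟩ := ConjClasses.exists_rep C
    rw [R_omega red h1, R_omega red h0]
    rw [← sub_iff red hO (Pool.Agent.H254R3.IN.IsIrr.omega_isIntegral h1 x)
      (Pool.Agent.H254R3.IN.IsIrr.omega_isIntegral h0 x)]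
    exact h2 x
  · rintro ⟨h1, h2⟩
    refine ⟨h1, fun x => ?_⟩
    rw [sub_iff red hO (Pool.Agent.H254R3.IN.IsIrr.omega_isIntegral h1 x)
      (Pool.Agent.H254R3.IN.IsIrr.omega_isIntegral h0 x), ← R_omega red h1, ← R_omega red h0]
    have hf : IsClassFun (ind F (ConjClasses.mk x)) := Cf_ind F (ConjClasses.mk x)
    have h3 := h2 _ hf
    rw [← hB _ hf, centralValue_eq red h1, centralValue_eq red h0] at h3
    exact (sum_ind _ x (fun C => R red χ (ind ℤ C))).symm.trans
      (h3.trans (sum_ind _ x (fun C => R red χ₀ (ind ℤ C))))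

theorem p_nonunit (p : ℕ) [Fact p.Prime] [CharP F p] : (p : ℂ) ∈ O.nonunits := by
  have h1 : IsIntegral ℤ (p : ℂ) := by
    have := isIntegral_algebraMap (R := ℤ) (A := ℂ) (x := (p : ℤ))
    simpa using this
  rw [hO _ h1]
  have h2 : (⟨(p : ℂ), h1⟩ : integralClosure ℤ ℂ) = ((p : ℕ) : integralClosure ℤ ℂ) := by
    apply Subtype.ext
    push_cast
    rfl
  rw [h2, map_natCast, CharP.cast_eq_zero]

omit hO in
theorem quo_eq {χ : G → ℂ} (h : IsIrreducibleCharacter χ) :
    (Nat.card G : ℂ) / χ 1 = (Pool.Agent.Y925.NV.md χ : ℂ) := by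
  have h1 := Pool.Agent.Y925.NV.md_spec h
  have h2 : χ 1 ≠ 0 := by
    intro h3
    rw [h3, mul_zero] at h1
    have h4 : Nat.card G ≠ 0 := Nat.card_pos.ne'
    exact h4 (by exact_mod_cast h1.symm)
  rw [div_eq_iff h2]
  exact h1.symm

theorem quo_nonunit (p : ℕ) [Fact p.Prime] [CharP F p] {χ : G → ℂ}
    (h : IsIrreducibleCharacter χ) :
    (Nat.card G : ℂ) / χ 1 ∈ O.nonunits ↔ ¬ IsWt p (⊥ : Subgroup G) χ := by
  have hp := p_nonunit red hO p
  rw [quo_eq h, ← Pool.Agent.H254R3.IN.red_eq_zero_iff (Pool.Agent.H254R3.IN.natCast_mem' _),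
    Pool.Agent.H254R3.IN.red_nat_eq_zero_iff hp, iff_not_comm,
    ← Pool.Agent.Y925.NV.dz_iff (p := p) h]
  constructor
  · rintro ⟨_, _, n, hn, h2⟩
    refine ⟨n, hn, ?_⟩
    rw [Subgroup.card_bot, Nat.factorization_one, Finsupp.zero_apply, add_zero] at h2
    exact h2
  · rintro ⟨n, hn, h2⟩
    refine ⟨h, fun q hq x => ?_, n, hn, ?_⟩
    · rw [Subgroup.mem_bot.1 hq, one_mul]
    · rw [Subgroup.card_bot, Nat.factorization_one, Finsupp.zero_apply, add_zero]
      exact h2

theorem good_iff (p : ℕ) [Fact p.Prime] [CharP F p] (h0 : IsIrreducibleCharacter χ₀)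
    (hB : ∀ f : G → F, IsClassFun f → centralValue red χ₀ f = B f) :
    GoodB O (bs O χ₀) ↔ numDzBlock p red B = 0 := by
  have hfin : Finite {χ : G → ℂ // IsWt p (⊥ : Subgroup G) χ ∧
      ∀ f : G → F, IsClassFun f → centralValue red χ f = B f} := by
    haveI := Pool.Agent.Y171.NV.wt_fin p G
    exact Finite.of_injective (fun χ => (⟨χ.1, χ.2.1⟩ : {χ : G → ℂ // IsWt p (⊥ : Subgroup G) χ}))
      fun a b h => Subtype.ext (congrArg (fun t => t.1) h)
  constructor
  · intro h
    unfold numDzBlock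
    rw [Nat.card_eq_zero]
    left
    constructor
    rintro ⟨χ, h1, h2⟩
    exact (quo_nonunit red hO p h1.irr).1 (h.pos χ ((mem_bs red hO h0 hB).2 ⟨h1.irr, h2⟩)) h1
  · intro h
    refine ⟨bs_block O h0, fun ψ hψ => ?_⟩
    obtain ⟨h1, h2⟩ := (mem_bs red hO h0 hB).1 hψ
    rw [quo_nonunit red hO p h1]
    intro h3
    unfold numDzBlock at h
    rw [Nat.card_eq_zero] at h
    rcases h with h | h
    · exact h.elim ⟨ψ, h3, h2⟩
    · exact h.false

end gp

end dic

end Pool.Agent.P8H58.AW
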