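import Pool.Agent.P8H58.AW.Kal
import Pool.Agent.P8H58.AW.Dic

/-!
# The weight conjecture and the alternating sums of groups with few quotients
-/

set_option autoImplicit false
set_option linter.unusedSectionVars false

open scoped Classical

noncomputable section

namespace Pool.Agent.P8H58.AW

open Pool.Agent.Y63.KR (IsPChain chainStabilizer alternatingSum)
open Pool.Agent.Y63.AWC (IsIrreducibleCharacter pSubgroupSetoid)
open Pool.Agent.Y63.NV
open Pool.Agent.Q90.WR (GoodB AdmB blkAlt)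
open Pool.Agent.P8H58.FR (PX Ecl TopS)

variable {p : ℕ} [hp : Fact p.Prime] {F : Type} [Field F]

/-- the alternating sum of Knörr and Robinson -/
def Kr {F : Type} [Field F] (p : ℕ) (red : integralClosure ℤ ℂ →+* F) {G : Type} [Group G]
    (B : (G → F) → F) : ℤ :=
  alternatingSum p G (fun H => (numIrrInd red H B : ℤ))

/-- the pairs -/
def PF {F : Type} [Field F] (p : ℕ) (red : integralClosure ℤ ℂ →+* F)
    (X : ∀ (G : Type) [Group G], Prop) (S : Type) [Group S] (G : Type) [Group G]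
    (B : (G → F) → F) : Prop :=
  X G ∧ Finite G ∧ (∀ P : Subgroup G, P.Normal → IsPGroup p P → P = ⊥) ∧ TopS S G ∧
    Pool.Agent.Y63.NV.IsBlock B ∧ numDzBlock p red B = 0

variable [CharP F p] (red : integralClosure ℤ ℂ →+* F) {X : ∀ (G : Type) [Group G], Prop}

section tr

variable {O : ValuationSubring ℂ}
  (hO : ∀ (a : ℂ) (h : IsIntegral ℤ a), (a ∈ O.nonunits ↔ red ⟨a, h⟩ = 0))

include hO

theorem of_block {G : Type} [Group G] [Finite G] {B : (G → F) → F}
    (hB : Pool.Agent.Y63.NV.IsBlock B) (h : numDzBlock p red B = 0) :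
    ∃ B' : Set (G → ℂ), GoodB O B' ∧ blkAlt p O B' = Kr p red B := by
  have := Fintype.ofFinite G
  obtain ⟨χ₀, h0, h1⟩ := Pool.Agent.N85.TG.Exc.core red hB
  exact ⟨bs O χ₀, (good_iff red hO p h0 h1).2 h, (alt_eq red hO p h0 h1).symm⟩

theorem to_block {S : Type} [Group S] {G : Type} [i : Group G] {B' : Set (G → ℂ)}
    (h : PX p O X S G i B') : ∃ B : (G → F) → F, PF p red X S G B ∧
      Kr p red B = blkAlt p O B' := by
  have := h.2.2.fin
  have := Fintype.ofFinite G
  have hg := h.2.2.good (p_nonunit red hO p)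
  obtain ⟨χ₀, h0, rfl⟩ := hg.block
  have h1 : ∀ f : G → F, IsClassFun f →
      centralValue red χ₀ f = (fun f : G → F => centralValue red χ₀ f) f := fun f _ => rfl
  refine ⟨fun f => centralValue red χ₀ f, ⟨h.1, inferInstance, h.2.2.core, h.2.1,
    Pool.Agent.Y930.NV.cvh F red G χ₀ h0, (good_iff red hO p h0 h1).1 hg⟩,
    alt_eq red hO p h0 h1⟩

end tr

/-- The blockwise weight conjecture and alternating sums. -/
theorem awc_iff [IsAlgClosed F] (hX : Closed p X) :
    (∀ (Γ : Type) [Group Γ] [Finite Γ] (G : Subgroup Γ) [G.Normal], X G → IsPGroup p (Γ ⧸ G) →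
      BAWC p red Γ) ↔
    ∀ (G : Type) [Group G] [Finite G], X G → ∀ B : (G → F) → F,
      Pool.Agent.Y63.NV.IsBlock B → numDzBlock p red B = 0 → Kr p red B = 0 := by
  constructor
  · intro h G _ _ hG B hB h0
    have h1 : KRB p red G := by
      refine krb_of_bawc Pool.Agent.R674.KB.kdimh Pool.Agent.R674.KB.kfilt
        Pool.Agent.R674.KB.kfin' red fun σ _ => ?_
      exact (bawc_iff p red).1 (h (chainStabilizer σ) ⊤
        (hX.iso _ _ (hX.sub G hG _) ⟨Subgroup.topEquiv.symm⟩) (pgroup_top p _))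
    have h2 := h1 B hB
    rw [h0] at h2
    exact h2
  · intro h
    have key := bawc_reduction' red X hX fun H _ _ hH hR hsmall => by
      refine bawc_of_krb Pool.Agent.R674.KB.kdimh Pool.Agent.R674.KB.kfilt
        Pool.Agent.R674.KB.kfin' red (fun σ hσ hne => ?_) ?_
      · have hXP : XP p X (chainStabilizer σ) :=
          (xp_closed p X hX).sub H ⟨⊤, inferInstance,
            hX.iso _ _ hH ⟨Subgroup.topEquiv.symm⟩, pgroup_top p H⟩ _
        exact hsmall (chainStabilizer σ) hXP (stab_lt hR.radical hσ hne)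
      · rw [← Pool.Agent.R674.KB.krq_iff]
        intro B hB hz
        refine h H hH B hB ?_
        unfold numDzBlock
        rw [Nat.card_eq_zero]
        left
        exact ⟨fun χ => hz χ.1 χ.2.1 χ.2.2⟩
    intro Γ _ _ G hG hXG hp
    exact (bawc_iff p red).2 (key (Nat.card Γ) Γ le_rfl ⟨G, hG, hXG, hp⟩)

variable [IsAlgClosed F] {S : Type} [Group S] [Finite S] [IsSimpleGroup S]

/-- from the alternating sums in the language of valuation rings -/
theorem awc_of (hX : Closed p X) {O : ValuationSubring ℂ}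
    (hO : ∀ (a : ℂ) (h : IsIntegral ℤ a), (a ∈ O.nonunits ↔ red ⟨a, h⟩ = 0))
    (h : ∀ (G : Type) [Group G] [Finite G], X G → ∀ B : Set (G → ℂ), GoodB O B →
      blkAlt p O B = 0) :
    ∀ (Γ : Type) [Group Γ] [Finite Γ] (G : Subgroup Γ) [G.Normal], X G → IsPGroup p (Γ ⧸ G) →
      BAWC p red Γ := by
  refine (awc_iff red hX).2 fun G _ _ hG B hB h0 => ?_
  obtain ⟨B', h1, h2⟩ := of_block red hO hB h0
  rw [← h2]
  exact h G hG B' h1

/-- the bounds -/
def Bd {F : Type} [Field F] (p : ℕ) (red : integralClosure ℤ ℂ →+* F)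
    (X : ∀ (G : Type) [Group G], Prop) (S : Type) [Group S] : Prop :=
  ∀ ε : ℝ, 0 < ε → ∃ c : ℝ, ∀ (G : Type) [Group G] (B : (G → F) → F), PF p red X S G B →
    (Kr p red B : ℝ) ≤ c * (Nat.card G : ℝ) ^ ε

theorem main (hX : Closed p X) (hE : Ecl X) {s t : S} (hst : s * t ≠ t * s) (hS : X S) :
    ((∀ (Γ : Type) [Group Γ] [Finite Γ] (G : Subgroup Γ) [G.Normal], X G → IsPGroup p (Γ ⧸ G) →
      BAWC p red Γ) ↔ ∀ (G : Type) [Group G] (B : (G → F) → F), PF p red X S G B →
        Kr p red B ≤ 0) ∧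
    (Bd p red X S → ∀ (G : Type) [Group G] [Finite G], X G → ∀ B : (G → F) → F,
      Pool.Agent.Y63.NV.IsBlock B → numDzBlock p red B = 0 → |Kr p red B| ≤ 1) ∧
    ((∀ (Γ : Type) [Group Γ] [Finite Γ] (G : Subgroup Γ) [G.Normal], X G → IsPGroup p (Γ ⧸ G) →
      BAWC p red Γ) ↔ Bd p red X S ∧ ∀ (G : Type) [Group G] (B : (G → F) → F),
        PF p red X S G B → Even (Kr p red B)) ∧
    (p ≠ 2 → (∃ s : S, orderOf s = 2) →
      ((∀ (Γ : Type) [Group Γ] [Finite Γ] (G : Subgroup Γ) [G.Normal], X G →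
        IsPGroup p (Γ ⧸ G) → BAWC p red Γ) ↔ Bd p red X S) ∧
      ((∀ (Γ : Type) [Group Γ] [Finite Γ] (G : Subgroup Γ) [G.Normal], X G →
        IsPGroup p (Γ ⧸ G) → BAWC p red Γ) ↔ ∀ (G : Type) [Group G] (B : (G → F) → F),
        PF p red X S G B → Even (Kr p red B))) := by
  obtain ⟨O, hO⟩ := exists_O red
  have hpO : (p : ℂ) ∈ O.nonunits := p_nonunit red hO p
  have zero : (∀ (Γ : Type) [Group Γ] [Finite Γ] (G : Subgroup Γ) [G.Normal], X G →
      IsPGroup p (Γ ⧸ G) → BAWC p red Γ) → ∀ (G : Type) [Group G] (B : (G → F) → F),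
      PF p red X S G B → Kr p red B = 0 := by
    intro h G _ B hB
    have := hB.2.1
    exact (awc_iff red hX).1 h G hB.1 B hB.2.2.2.2.1 hB.2.2.2.2.2
  have bd0 : (∀ (G : Type) [Group G] (B : (G → F) → F), PF p red X S G B → Kr p red B = 0) →
      Bd p red X S := by
    intro h ε _
    refine ⟨0, fun G _ B hB => ?_⟩
    rw [h G B hB, Int.cast_zero, zero_mul]
  have le_tr : (∀ (G : Type) [Group G] (B : (G → F) → F), PF p red X S G B → Kr p red B ≤ 0) →
      ∀ (G : Type) [i : Group G] (B : Set (G → ℂ)), PX p O X S G i B → blkAlt p O B ≤ 0 := by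
    intro h G i B hB
    obtain ⟨B', h1, h2⟩ := to_block red hO hB
    rw [← h2]
    exact h G B' h1
  have ev_tr : (∀ (G : Type) [Group G] (B : (G → F) → F), PF p red X S G B →
      Even (Kr p red B)) →
      ∀ (G : Type) [i : Group G] (B : Set (G → ℂ)), PX p O X S G i B → Even (blkAlt p O B) := by
    intro h G i B hB
    obtain ⟨B', h1, h2⟩ := to_block red hO hB
    rw [← h2]
    exact h G B' h1
  have bd_tr : Bd p red X S → ∀ ε : ℝ, 0 < ε → ∃ c : ℝ, ∀ (G : Type) [i : Group G]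
      (B : Set (G → ℂ)), PX p O X S G i B → (blkAlt p O B : ℝ) ≤ c * (Nat.card G : ℝ) ^ ε := by
    intro h ε hε
    obtain ⟨c, hc⟩ := h ε hε
    refine ⟨c, fun G i B hB => ?_⟩
    obtain ⟨B', h1, h2⟩ := to_block red hO hB
    rw [← h2]
    exact hc G B' h1
  refine ⟨⟨fun h G _ B hB => (zero h G B hB).le, fun h => ?_⟩, ?_,
    ⟨fun h => ⟨bd0 (zero h), fun G _ B hB => ?_⟩, ?_⟩, ?_⟩
  · refine awc_of red hX hO fun G _ _ hG B hB => ?_
    exact K_of_le (S := S) hpO hE hst hS (le_tr h) G hG B hB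
  · intro h G _ _ hG B hB h0
    obtain ⟨B', h1, h2⟩ := of_block red hO hB h0
    rw [← h2]
    exact K_unit (S := S) hpO hE hst hS (bd_tr h) G hG B' h1
  · rw [zero h G B hB]
    exact Even.zero
  · rintro ⟨h, h2⟩
    refine awc_of red hX hO fun G _ _ hG B hB => ?_
    exact K_of_even (S := S) hpO hE hst hS (bd_tr h) (ev_tr h2) G hG B hB
  · rintro hp2 ⟨u, hu⟩
    have hX2 : X (Multiplicative (ZMod 2)) := by
      have : Fact (Nat.Prime 2) := ⟨Nat.prime_two⟩
      refine hE.iso _ _ (hE.sub S hS (Subgroup.zpowers u)) ⟨mulEquivOfPrimeCardEq (p := 2) ?_ ?_⟩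
      · rw [Nat.card_zpowers, hu]
      · rw [Nat.card_congr Multiplicative.toAdd, Nat.card_zmod]
    refine ⟨⟨fun h => bd0 (zero h), fun h => ?_⟩, ⟨fun h G _ B hB => ?_, fun h => ?_⟩⟩
    · refine awc_of red hX hO fun G _ _ hG B hB => ?_
      exact K_of_sub (S := S) hp2 hpO hE hX2 hst hS (bd_tr h) G hG B hB
    · rw [zero h G B hB]
      exact Even.zero
    · refine awc_of red hX hO fun G _ _ hG B hB => ?_
      exact K_of_parity (S := S) hp2 hpO hE hX2 hst hS (ev_tr h) G hG B hB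

end Pool.Agent.P8H58.AW
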