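import Pool.Agent.P8H58.Lgl

/-!
# The alternating sum of Knörr and Robinson: classes of groups with few quotients
-/

set_option autoImplicit false
set_option linter.unusedSectionVars false

open scoped Classical

noncomputable section

namespace Pool.Agent.P8H58.AW

open Pool.Agent.Y63.KR Pool.Agent.Q90.WR Pool.Agent.H254R3.IN Pool.Agent.Q259.BW
open Pool.Agent.N22.DD Pool.Agent.P8H58 Pool.Agent.P8H58.FR

section

variable {p : ℕ} [hp : Fact p.Prime] {O : ValuationSubring ℂ}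
  {X : ∀ (G : Type) [Group G], Prop} {S : Type} [Group S]

/-- squares -/
theorem K_sq {C : Cl} (hA : ∀ (G : Type) [i : Group G] (B : Set (G → ℂ)), C G i B → AdmB p O G B)
    (hS : SqC C) (hs : ∀ ε : ℝ, 0 < ε → ∃ c : ℝ, ∀ (G : Type) [i : Group G] (B : Set (G → ℂ)),
      C G i B → (blkAlt p O B : ℝ) ≤ c * (Nat.card G : ℝ) ^ ε) (G : Type)
    [i : Group G] (B : Set (G → ℂ)) (hB : C G i B) : |blkAlt p O B| ≤ 1 := by
  have h1 := tensor (fun G _ B hB => (hA G B hB).fin) hS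
    (fun G _ B => ((blkAlt p O B : ℤ) : ℝ) ^ 2)
    (fun G _ B hB => by
      have := (hA G B hB).fin
      have h := blkAlt_sq (p := p) (hA G B hB).block
      change ((blkAlt p O (bxS B B) : ℤ) : ℝ) ^ 2 = _
      rw [h]
      push_cast
      ring) (by
      intro ε hε
      obtain ⟨c, hc⟩ := hs (ε / 2) (by linarith)
      refine ⟨c, fun G _ B hB => ?_⟩
      have := (hA G B hB).fin
      have hg' : (0 : ℝ) < Nat.card G := by exact_mod_cast Nat.card_pos (α := G)
      have h2 := hc (G × G) (bxS B B) (hS G B hB)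
      rw [blkAlt_sq (p := p) (hA G B hB).block] at h2
      have h5 : (Nat.card G : ℝ) ^ ε = (Nat.card (G × G) : ℝ) ^ (ε / 2) := by
        rw [Nat.card_prod, Nat.cast_mul, ← pow_two, ← Real.rpow_natCast,
          ← Real.rpow_mul hg'.le]
        congr 1
        push_cast
        ring
      rw [h5]
      push_cast at h2
      exact h2) G B hB
  have h2 : (blkAlt p O B) ^ 2 ≤ 1 := by exact_mod_cast h1
  exact (sq_le_one_iff_abs_le_one _).1 h2

/-- the transfer to groups with few quotients -/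
theorem K_to_PX [Finite S] [IsSimpleGroup S] (hpO : (p : ℂ) ∈ O.nonunits) (hX : Ecl X)
    {s t : S} (hst : s * t ≠ t * s) (hS : X S) (G : Type) [Group G] [Finite G] (hG : X G)
    (B : Set (G → ℂ)) (hB : GoodB O B) :
    ∃ (Γ : Type) (i : Group Γ) (B' : Set (Γ → ℂ)), PX p O X S Γ i B' ∧
      blkAlt p O B' = blkAlt p O B := by
  obtain ⟨Γ, i, B', h1, _, _, h2⟩ := to_PX (S := S) hpO hX hst hS G hG B hB
  refine ⟨Γ, i, B', h1, ?_⟩
  have h3 := h2 1
  have := h1.2.2.fin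
  have := Fintype.ofFinite Γ
  have := Fintype.ofFinite G
  rw [Wt_one, Wt_one] at h3
  exact_mod_cast h3

variable [Finite S] [IsSimpleGroup S]

/-- nonpositive sums vanish -/
theorem K_of_le (hpO : (p : ℂ) ∈ O.nonunits) (hX : Ecl X) {s t : S} (hst : s * t ≠ t * s)
    (hS : X S) (h : ∀ (G : Type) [i : Group G] (B : Set (G → ℂ)), PX p O X S G i B →
      blkAlt p O B ≤ 0) (G : Type) [Group G] [Finite G] (hG : X G)
    (B : Set (G → ℂ)) (hB : GoodB O B) : blkAlt p O B = 0 := by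
  obtain ⟨Γ, i, B', h1, h2⟩ := K_to_PX (S := S) hpO hX hst hS G hG B hB
  rw [← h2]
  have := h1.2.2.fin
  have h3 := h _ _ (PX_sq hX Γ B' h1)
  rw [blkAlt_sq (p := p) h1.2.2.block] at h3
  exact pow_eq_zero_iff (two_ne_zero) |>.1 (le_antisymm h3 (sq_nonneg _))

/-- subpolynomial bounds, for all primes -/
theorem K_unit (hpO : (p : ℂ) ∈ O.nonunits) (hX : Ecl X) {s t : S} (hst : s * t ≠ t * s)
    (hS : X S) (h : ∀ ε : ℝ, 0 < ε → ∃ c : ℝ, ∀ (G : Type) [i : Group G] (B : Set (G → ℂ)),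
      PX p O X S G i B → (blkAlt p O B : ℝ) ≤ c * (Nat.card G : ℝ) ^ ε) (G : Type)
    [Group G] [Finite G] (hG : X G) (B : Set (G → ℂ)) (hB : GoodB O B) :
    |blkAlt p O B| ≤ 1 := by
  obtain ⟨Γ, i, B', h1, h2⟩ := K_to_PX (S := S) hpO hX hst hS G hG B hB
  rw [← h2]
  exact K_sq PX_adm (PX_sq hX) h Γ B' h1

/-- subpolynomial bounds and parity, for all primes -/
theorem K_of_even (hpO : (p : ℂ) ∈ O.nonunits) (hX : Ecl X) {s t : S} (hst : s * t ≠ t * s)
    (hS : X S) (h : ∀ ε : ℝ, 0 < ε → ∃ c : ℝ, ∀ (G : Type) [i : Group G] (B : Set (G → ℂ)),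
      PX p O X S G i B → (blkAlt p O B : ℝ) ≤ c * (Nat.card G : ℝ) ^ ε)
    (h2 : ∀ (G : Type) [i : Group G] (B : Set (G → ℂ)), PX p O X S G i B →
      Even (blkAlt p O B)) (G : Type)
    [Group G] [Finite G] (hG : X G) (B : Set (G → ℂ)) (hB : GoodB O B) : blkAlt p O B = 0 := by
  have h3 := abs_le.mp (K_unit hpO hX hst hS h G hG B hB)
  obtain ⟨Γ, i, B', h4, h5⟩ := K_to_PX (S := S) hpO hX hst hS G hG B hB
  obtain ⟨k, hk⟩ := h2 Γ B' h4
  rw [h5] at hk
  omega

/-- **subpolynomial bounds, for odd primes** -/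
theorem K_of_sub (hp2 : p ≠ 2) (hpO : (p : ℂ) ∈ O.nonunits) (hX : Ecl X)
    (hX2 : X (Multiplicative (ZMod 2))) {s t : S} (hst : s * t ≠ t * s)
    (hS : X S) (h : ∀ ε : ℝ, 0 < ε → ∃ c : ℝ, ∀ (G : Type) [i : Group G] (B : Set (G → ℂ)),
      PX p O X S G i B → (blkAlt p O B : ℝ) ≤ c * (Nat.card G : ℝ) ^ ε) (G : Type)
    [Group G] [Finite G] (hG : X G) (B : Set (G → ℂ)) (hB : GoodB O B) : blkAlt p O B = 0 := by
  -- the value one does not occur
  have key : ∀ (G : Type) [Group G] [Finite G], X G → ∀ B : Set (G → ℂ), GoodB O B →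
      blkAlt p O B ≠ 1 := by
    intro G _ _ hG B hB h1
    have := Fintype.ofFinite G
    have h2 := blkAlt_wr (p := p) hp2 hpO hB.block hB.pos
    have h3 := abs_le.mp (K_unit hpO hX hst hS h (Wr G) (X_wr hX hX2 hG) (WrS B)
      (hB.wr hp2 hpO))
    rw [h1] at h2
    omega
  obtain ⟨Γ, i, B', h1, h2⟩ := K_to_PX (S := S) hpO hX hst hS G hG B hB
  rw [← h2]
  have := h1.2.2.fin
  have h3 := PX_sq hX Γ B' h1
  have := h3.2.2.fin
  have h4 := key (Γ × Γ) h3.1 (bxS B' B') (h3.2.2.good hpO)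
  rw [blkAlt_sq (p := p) h1.2.2.block] at h4
  have h5 := abs_le.mp (K_sq PX_adm (PX_sq hX) h Γ B' h1)
  have h6 : blkAlt p O B' = -1 ∨ blkAlt p O B' = 0 ∨ blkAlt p O B' = 1 := by omega
  rcases h6 with h6 | h6 | h6
  · rw [h6] at h4
    exact absurd (by norm_num) h4
  · exact h6
  · rw [h6] at h4
    exact absurd (by norm_num) h4

/-- **parity, for odd primes** -/
theorem K_of_parity (hp2 : p ≠ 2) (hpO : (p : ℂ) ∈ O.nonunits) (hX : Ecl X)
    (hX2 : X (Multiplicative (ZMod 2))) {s t : S} (hst : s * t ≠ t * s)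
    (hS : X S) (h : ∀ (G : Type) [i : Group G] (B : Set (G → ℂ)), PX p O X S G i B →
      Even (blkAlt p O B)) (G : Type)
    [Group G] [Finite G] (hG : X G) (B : Set (G → ℂ)) (hB : GoodB O B) : blkAlt p O B = 0 := by
  have heven : ∀ (G : Type) [Group G] [Finite G], X G → ∀ B : Set (G → ℂ), GoodB O B →
      Even (blkAlt p O B) := by
    intro G _ _ hG B hB
    obtain ⟨Γ, i, B', h1, h2⟩ := K_to_PX (S := S) hpO hX hst hS G hG B hB
    rw [← h2]
    exact h Γ B' h1
  have key : ∀ (n : ℕ) (G : Type) [Group G] [Finite G], X G → ∀ B : Set (G → ℂ), GoodB O B →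
      (2 : ℤ) ^ n ∣ blkAlt p O B := by
    intro n
    induction n with
    | zero => intro G _ _ _ B _; rw [pow_zero]; exact one_dvd _
    | succ n ih =>
      intro G _ _ hG B hB
      have := Fintype.ofFinite G
      have h2 := blkAlt_wr (p := p) hp2 hpO hB.block hB.pos
      have h3 := ih (Wr G) (X_wr hX hX2 hG) (WrS B) (hB.wr hp2 hpO)
      have h4 : (2 : ℤ) ^ (n + 1) ∣ blkAlt p O B * (blkAlt p O B + 3) := by
        have h5 : blkAlt p O B * (blkAlt p O B + 3) = 2 * blkAlt p O (WrS B) := by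
          rw [h2]
          ring
        rw [h5, pow_succ, mul_comm]
        exact mul_dvd_mul_left 2 h3
      refine (IsCoprime.pow_left ?_).dvd_of_dvd_mul_right h4
      obtain ⟨k, hk⟩ := heven G hG B hB
      exact ⟨-(k + 1), 1, by rw [hk]; ring⟩
  by_contra hne
  have h1 := key (blkAlt p O B).natAbs G hG B hB
  have h2 := Int.natAbs_dvd_natAbs.2 h1
  rw [Int.natAbs_pow] at h2
  have h3 := Nat.le_of_dvd (Int.natAbs_pos.2 hne) h2
  have h4 : (blkAlt p O B).natAbs < 2 ^ (blkAlt p O B).natAbs := Nat.lt_two_pow_self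
  exact absurd h3 (not_le.2 h4)

end

end Pool.Agent.P8H58.AW
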